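import Pool.Agent.H461.PP.All

/-!
# The second moment of `#Cl[3]` for imaginary quadratic function fields of characteristic 3 is bounded

Let `F` be a finite field of characteristic `3` with `q` elements (any `q = 3, 9, 27, …`, fixed), and let `f` run over the
monic squarefree polynomials of degree `2 g + 1`: the rings `F[t] + F[t] √f` are the maximal orders of the quadratic
extensions of `F(t)` which are ramified at infinity, the analogues of the imaginary quadratic number fields.

The theorem: the average of `(#Cl(f)[3])²` over the family is bounded as `g → ∞`, for EVERY `q`; so the proportion of the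
`f` with `#Cl(f)[3] ≥ 3^r` is `O(9^{-r})`, uniformly in `g`.

The first moment (`#Cl(f)[3]` is `2` on average) is the hand-in `ThreeTorsionAverage` of helper463, whose identification
`#Cl(f)[3] = #{v : (f v)'' = - v³}` (`Pool/Agent/H463/DH`) we use.  The proof of the bound for the second moment counts the
pairs of solutions by their Wronskian `W = v₁' v₂ - v₁ v₂'`, for which `2 f' W + f W' = v₁ v₂ (v₂² - v₁²)`: write
`W = c³ w` with `w` cube-free; `w` determines a lattice of rank 2 over `F[t³]` containing `v₁, v₂`, the cubic form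
`v₁ v₂ (v₂² - v₁²)` becomes (up to a power of `w`) a quartic form in the coordinates with respect to a reduced basis, and
the congruence `c³ ∣ v₁ v₂ (v₂² - v₁²)` is counted with the divisor function.
-/

set_option autoImplicit false

open Polynomial

noncomputable section

namespace Pool.Agent.Results.MP_0f260b_nt.BoundedSecondMoment

/-- The ring `F[t] + F[t] √f`: elements `a + b s` with `a, b ∈ F[t]` and `s² = f`. -/
abbrev Ord {F : Type} [Field F] (f : F[X]) : Type := QuadraticAlgebra F[X] f 0

/-- The monic squarefree polynomials of degree `2 g + 1` over `F`. -/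
def family (F : Type) [Field F] (g : ℕ) : Set F[X] :=
  {f | f.Monic ∧ Squarefree f ∧ f.natDegree = 2 * g + 1}

open scoped Classical in
/-- The number of the ideal classes `c` of `Ord f` with `c ^ 3 = 1` (`0` if `Ord f` is not a domain, which does not
happen for `f` in a `family`). -/
def threeTorsion {F : Type} [Field F] (f : F[X]) : ℕ :=
  if _h : IsDomain (Ord f) then Nat.card {c : ClassGroup (Ord f) // c ^ 3 = 1} else 0

theorem family_eq (F : Type) [Field F] [Fintype F] [CharP F 3] (g : ℕ) :
    family F g = (DH.SQF F (2 * g + 1) : Set F[X]) := by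
  have hB0 := DH.p_B0 F
  ext f
  simp only [family, Set.mem_setOf_eq, DH.SQF, Finset.coe_filter, hB0.2.1]
  tauto

theorem result (F : Type) [Field F] [Fintype F] [CharP F 3] :
    -- the rings are Dedekind domains
    (∀ g : ℕ, ∀ f ∈ family F g, IsDedekindDomain (Ord f)) ∧
    ∃ C : ℝ, ∀ g : ℕ, 1 ≤ g →
      -- the second moment of `#Cl[3]` is bounded
      (∑ᶠ f ∈ family F g, (threeTorsion f : ℝ) ^ 2 ≤ C * ((family F g).ncard : ℝ)) ∧
      -- large 3-torsion is rare
      ∀ r : ℕ, ({f ∈ family F g | 3 ^ r ≤ threeTorsion f}.ncard : ℝ) ≤ C / 9 ^ r * ((family F g).ncard : ℝ) := by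
  classical
  obtain ⟨-, hD, C, h⟩ := PP.all F
  have hcard : ∀ g : ℕ, ((family F g).ncard : ℝ) = ((DH.SQF F (2 * g + 1)).card : ℝ) := by
    intro g
    rw [family_eq, Set.ncard_coe_finset]
  refine ⟨?_, C, fun g hg => ⟨?_, fun r => ?_⟩⟩
  · rintro g f ⟨hm, hs, hd⟩
    exact hD f hm hs ⟨g, hd⟩
  · have e : ∑ᶠ f ∈ family F g, (threeTorsion f : ℝ) ^ 2 =
        ∑ f ∈ DH.SQF F (2 * g + 1), (DH.cl3 f : ℝ) ^ 2 := by
      rw [family_eq, finsum_mem_coe_finset]
      rfl
    rw [e, hcard]
    exact (h g hg).1
  · have e : {f ∈ family F g | 3 ^ r ≤ threeTorsion f} =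
        (((DH.SQF F (2 * g + 1)).filter (fun f => 3 ^ r ≤ DH.cl3 f) : Finset F[X]) : Set F[X]) := by
      ext f
      simp only [Set.mem_setOf_eq, Finset.coe_filter]
      rw [family_eq]
      rfl
    rw [e, Set.ncard_coe_finset, hcard]
    exact (h g hg).2 r

end Pool.Agent.Results.MP_0f260b_nt.BoundedSecondMoment
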