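import Pool.Agent.H463.DH.Uni

/-!
# The class numbers of imaginary quadratic function fields of characteristic 3 which are divisible by 3

Let `F` be a finite field of characteristic `3` with `q` elements (`q = 3, 9, 27, …` is fixed).
The quadratic extensions `K` of `F(t)` in which the infinite place ramifies are, up to scaling, the
fields `F(t)(√f)` with `f` monic squarefree of odd degree `2 g + 1` (`g` is the genus of `K`); the
integral closure of `F[t]` in `K` is the Dedekind domain `F[t] + F[t] √f`, with finite class group.

The theorem: there are absolute constants `c₀ > 0` and `K` such that for each `F` and some `c ≥ c₀` with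
`c ≥ 7/16 - K/q`, for all large `g`, at least `c` times the number of all these `f` have a class number
divisible by `3`: a positive proportion, uniformly in `q`.
(Cohen and Lenstra predict the proportion `1 - ∏ (1 - 3^{-i}) = 0.43987…`, and `7/16 = 0.4375`; on the other
side the proportion is at most `1/2`, as the average of the number of classes with `c³ = 1` is `2`.)
(The bound `7/16 - K/q` for large `q` is also a consequence of the theorem of helper461 on the second moment of
the number of classes with `c³ = 1`, which was found at the same time.)  The analogous statement for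
imaginary quadratic number fields, even with some `c > 0`, is, as far as I know, open.

## The proof

With the derivation `δ t = √f` of `F[t] + F[t] √f` one has `δ³ = - f'' δ`, and logarithmic derivatives
identify the classes of order dividing `3` with the polynomials `v` such that `(f v)'' = - v³`.  Let `X(f)`
be the number of the squarefree solutions `v` of degree `g - 1`.  The first moment of `X` is at least
`(1 - 6/q) q^{2g+1}` (lattice points and a sieve), and the number of the triples `(f, v₁, v₂)`, `v₂ ≠ ± v₁`, is at
most `(1 + O(1/q)) q^{2g+1}`: for two solutions with Wronskian `W = v₁' v₂ - v₁ v₂' = c³ f₀` (`f₀` cube-free) one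
has `2 f' W + f W' = v₁ v₂ (v₂² - v₁²)`, so that `c³` divides `v₁ v₂ (v₂² - v₁²)` and the coefficients of `W` at
`t^{2g-4}` and of `v₁ v₂ (v₂² - v₁²)` at `t^{4g-4}` are equal; the solutions `f` are a coset of the multiples
`f₀ h³`, and the pairs with given `c` can be counted.  Finally `[n > 1] ≥ (n-1)/2 - (n-1)(n-3)/16` for all
powers `n` of `3`.
-/

set_option autoImplicit false

open Polynomial

noncomputable section

namespace Pool.Agent.Results.MP_0f260b_nt.DivisibleByThree

/-- The ring `F[t] + F[t] √f`: elements `a + b s` with `a, b ∈ F[t]` and `s² = f`. -/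
abbrev Ord {F : Type} [Field F] (f : F[X]) : Type := QuadraticAlgebra F[X] f 0

/-- The monic squarefree polynomials of degree `2 g + 1` over `F`. -/
def family (F : Type) [Field F] (g : ℕ) : Set F[X] :=
  {f | f.Monic ∧ Squarefree f ∧ f.natDegree = 2 * g + 1}

open scoped Classical in
/-- The class number of `Ord f` (for `f` in a `family`, when `Ord f` is a Dedekind domain with finite
class group; `0` if `Ord f` is not a domain). -/
def classNumber {F : Type} [Field F] (f : F[X]) : ℕ :=
  if _h : IsDomain (Ord f) then Nat.card (ClassGroup (Ord f)) else 0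

theorem family_eq (F : Type) [Field F] [Fintype F] [CharP F 3] (g : ℕ) :
    family F g = (DH.SQF F (2 * g + 1) : Set F[X]) := by
  have hB0 := DH.p_B0 F
  ext f
  simp only [family, Set.mem_setOf_eq, DH.SQF, Finset.coe_filter, hB0.2.1]
  tauto

theorem result : ∃ c₀ K : ℝ, 0 < c₀ ∧ ∀ (F : Type) [Field F] [Fintype F] [CharP F 3],
    -- the rings are Dedekind domains with finite class groups
    (∀ g : ℕ, ∀ f ∈ family F g, IsDedekindDomain (Ord f) ∧ 0 < classNumber f) ∧
    -- the size of the family
    (∀ g : ℕ, 1 ≤ g → ((family F g).ncard : ℝ) =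
      (Fintype.card F : ℝ) ^ (2 * g + 1) - (Fintype.card F : ℝ) ^ (2 * g)) ∧
    -- at least the proportion `c₀`, and at least `7/16 - K/q`, of the class numbers is divisible by `3`
    (∃ c : ℝ, c₀ ≤ c ∧ 7 / 16 - K / Fintype.card F ≤ c ∧ ∃ g₀ : ℕ, ∀ g ≥ g₀,
      c * ((family F g).ncard : ℝ) ≤ ({f ∈ family F g | 3 ∣ classNumber f}.ncard : ℝ)) := by
  classical
  obtain ⟨c₀, K, hc0, huni⟩ := DH.uniform
  refine ⟨c₀, K, hc0, fun F _ _ _ => ?_⟩
  have hB0 := DH.p_B0 F
  have hA2 := DH.p_A2 F
  have hA3 := DH.p_A3 F
  have hC1 := DH.p_C1 F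
  have hC2 := DH.p_C2 F
  have hF5 := DH.p_F5 F hB0 (DH.p_MU F hB0)
  obtain ⟨c, hc, hcK, g₀, h3⟩ := huni F
  have hgood : ∀ g, ∀ f ∈ family F g, DH.Good f := by
    rintro g f ⟨hm, hs, hd⟩
    exact ⟨hm, hs, ⟨g, hd⟩⟩
  have h2' := hC2 hA2 (hC1 hA2 hA3)
  have hcard : ∀ g : ℕ, ((family F g).ncard : ℝ) = ((DH.SQF F (2 * g + 1)).card : ℝ) := by
    intro g
    rw [family_eq, Set.ncard_coe_finset]
  refine ⟨?_, ?_, ⟨c, hc, hcK, g₀, ?_⟩⟩
  · intro g f hf
    exact ⟨hA3 f (hgood g f hf), hC1 hA2 hA3 f (hgood g f hf)⟩
  · intro g hg
    rw [hcard]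
    exact hF5.2 g hg
  · intro g hg
    have e : {f ∈ family F g | 3 ∣ classNumber f} =
        (((DH.SQF F (2 * g + 1)).filter (fun f => 1 < DH.cl3 f) : Finset F[X]) : Set F[X]) := by
      ext f
      simp only [Set.mem_setOf_eq, Finset.coe_filter]
      rw [family_eq]
      constructor
      · rintro ⟨hf, h3⟩
        have hf' : f ∈ family F g := by rw [family_eq]; exact hf
        exact ⟨hf, (h2' f (hgood g f hf')).2.1.2 h3⟩
      · rintro ⟨hf, h3⟩
        have hf' : f ∈ family F g := by rw [family_eq]; exact hf
        exact ⟨hf, (h2' f (hgood g f hf')).2.1.1 h3⟩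
    rw [e, Set.ncard_coe_finset, hcard]
    exact h3 g hg

end Pool.Agent.Results.MP_0f260b_nt.DivisibleByThree
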