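import Pool.Agent.H461.PP.All3

/-!
# The second moment of `#Cl[3]` for imaginary quadratic function fields of characteristic 3

Let `F` be a finite field of characteristic `3` with `q` elements, and let `f` run over the monic squarefree
polynomials of degree `2 g + 1`: the rings `F[t] + F[t] √f` are the maximal orders of the quadratic extensions of `F(t)`
which are ramified at infinity, the analogues of the imaginary quadratic number fields (for `p = 3 = char F`, the case
which is excluded in the theorems of Ellenberg-Venkatesh-Westerland and of Landesman-Levy).  Write `h_3(f) = #Cl(f)[3]`.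

The theorem (for large `q`; the boundedness for every `q` is the hand-in `BoundedSecondMoment`).

* The average of `h_3(f)²` has the limes superior and the limes inferior within `10⁹/q` of `6 = 1 + 4 + 1`, the
  value predicted by Cohen and Lenstra.  (With the average `2` of `h_3` - hand-in `ThreeTorsionAverage` of helper463 - this
  says that the average number of surjections `Cl(f) → (ℤ/3)²` is `1 + O(1/q)`.)
* So the proportion of the class numbers prime to 3 is at most `9/16 + O(1/q) = 0.5625 + O(1/q)`
  (prediction: `∏ (1 - 3^{-i}) = 0.5601…`; it is at least `1/2` by `ThreeTorsionAverage`), the proportion of the `f` with 3-rank one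
  is at least `5/12 - O(1/q) = 0.4166… - O(1/q)` (prediction `0.4201…`), and the proportion of the `f` with 3-rank at least
  two is at most `1/48 + O(1/q) = 0.0208… + O(1/q)` (prediction `0.0197…`).

## The proof

`Cl(f)[3] = {v : (f v)'' = - v³}` (DH, by helper463 and others).  For two independent solutions the Wronskian
`W = v₁' v₂ - v₁ v₂'` satisfies `2 f' W + f W' = v₁ v₂ (v₂² - v₁²)`.  Write `W = c³ w` with `w` cube-free.  The pairs with
`deg w ≤ 2 g - K` are rare: they are in lattices of rank 2 over `F[t³]` attached to `w`, and the congruence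
`c³ ∣ v₁ v₂ (v₂² - v₁²)` is counted with reduced bases and the divisor function (parts 1 and 2).  For the other pairs
(`deg w` close to `2 g`) the number of the `f` is a product of a weight at infinity and of local weights, which are
equidistributed over the pairs of polynomials of degree `< g` (part 3); and for almost all pairs with the right leading
coefficients there are exactly `q²` polynomials `f`.
-/

set_option autoImplicit false

open Polynomial

noncomputable section

namespace Pool.Agent.Results.MP_0f260b_nt.SecondMoment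

/-- The ring `F[t] + F[t] √f`: elements `a + b s` with `a, b ∈ F[t]` and `s² = f`. -/
abbrev Ord {F : Type} [Field F] (f : F[X]) : Type := QuadraticAlgebra F[X] f 0

/-- The monic squarefree polynomials of degree `2 g + 1` over `F`. -/
def family (F : Type) [Field F] (g : ℕ) : Set F[X] :=
  {f | f.Monic ∧ Squarefree f ∧ f.natDegree = 2 * g + 1}

open scoped Classical in
/-- The number of the ideal classes `c` of `Ord f` with `c ^ 3 = 1` (`0` if `Ord f` is not a domain, which does not
happen for `f` in a `family`). -/
def threeTorsion {F : Type} [Field F] (f : F[X]) : ℕ :=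
  if _h : IsDomain (Ord f) then Nat.card {c : ClassGroup (Ord f) // c ^ 3 = 1} else 0

theorem family_eq (F : Type) [Field F] [Fintype F] [CharP F 3] (g : ℕ) :
    family F g = (DH.SQF F (2 * g + 1) : Set F[X]) := by
  have hB0 := DH.p_B0 F
  ext f
  simp only [family, Set.mem_setOf_eq, DH.SQF, Finset.coe_filter, hB0.2.1]
  tauto

theorem result (F : Type) [Field F] [Fintype F] [CharP F 3] :
    -- the rings are Dedekind domains
    (∀ g : ℕ, ∀ f ∈ family F g, IsDedekindDomain (Ord f)) ∧
    ∀ ε : ℝ, 0 < ε → ∃ g₀ : ℕ, ∀ g ≥ g₀,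
      -- the second moment is `6 + O(1/q)`
      (|∑ᶠ f ∈ family F g, (threeTorsion f : ℝ) ^ 2 - 6 * ((family F g).ncard : ℝ)| ≤
        (10 ^ 9 / (Fintype.card F : ℝ) + ε) * ((family F g).ncard : ℝ)) ∧
      -- consequences for the densities of the 3-ranks `0`, `1` and `≥ 2`
      (({f ∈ family F g | threeTorsion f = 1}.ncard : ℝ) ≤
        (9 / 16 + 10 ^ 9 / (Fintype.card F : ℝ) + ε) * ((family F g).ncard : ℝ)) ∧
      ((5 / 12 - 10 ^ 9 / (Fintype.card F : ℝ) - ε) * ((family F g).ncard : ℝ) ≤
        ({f ∈ family F g | threeTorsion f = 3}.ncard : ℝ)) ∧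
      (({f ∈ family F g | 9 ≤ threeTorsion f}.ncard : ℝ) ≤
        (1 / 48 + 10 ^ 9 / (Fintype.card F : ℝ) + ε) * ((family F g).ncard : ℝ)) := by
  classical
  obtain ⟨-, ⟨hD, -⟩, hZ1, hZ2, hZ3⟩ := PP.all3 F
  have hcard : ∀ g : ℕ, ((family F g).ncard : ℝ) = ((DH.SQF F (2 * g + 1)).card : ℝ) := by
    intro g
    rw [family_eq, Set.ncard_coe_finset]
  have hsum : ∀ g : ℕ, ∑ᶠ f ∈ family F g, (threeTorsion f : ℝ) ^ 2 =
      ∑ f ∈ DH.SQF F (2 * g + 1), (DH.cl3 f : ℝ) ^ 2 := by
    intro g
    rw [family_eq, finsum_mem_coe_finset]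
    rfl
  have hset : ∀ (g : ℕ) (p : ℕ → Prop) (inst : DecidablePred (fun f : F[X] => p (DH.cl3 f))),
      ({f ∈ family F g | p (threeTorsion f)}.ncard : ℝ) =
      (((DH.SQF F (2 * g + 1)).filter (fun f => p (DH.cl3 f))).card : ℝ) := by
    intro g p inst
    have e : {f ∈ family F g | p (threeTorsion f)} =
        (((DH.SQF F (2 * g + 1)).filter (fun f => p (DH.cl3 f)) : Finset F[X]) : Set F[X]) := by
      ext f
      simp only [Set.mem_setOf_eq, Finset.coe_filter]
      rw [family_eq]
      rfl
    rw [e, Set.ncard_coe_finset]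
  refine ⟨?_, fun ε hε => ?_⟩
  · rintro g f ⟨hm, hs, hd⟩
    exact hD f hm hs ⟨g, hd⟩
  · obtain ⟨g₁, h1⟩ := hZ1 ε hε
    obtain ⟨g₂, h2⟩ := hZ2 ε hε
    obtain ⟨g₃, h3⟩ := hZ3 ε hε
    have e9 : (10 : ℝ) ^ 9 = 1000000000 := by norm_num
    refine ⟨g₁ + g₂ + g₃, fun g hg => ⟨?_, ?_, ?_, ?_⟩⟩
    · rw [hsum, hcard, e9]
      exact h1 g (by omega)
    · have h' := h2 g (by omega)
      rw [← hset g (fun k => k = 1), ← hcard, ← e9] at h'
      exact h'
    · have h' := (h3 g (by omega)).1
      rw [← hset g (fun k => k = 3), ← hcard, ← e9] at h'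
      exact h'
    · have h' := (h3 g (by omega)).2
      rw [← hset g (fun k => 9 ≤ k), ← hcard, ← e9] at h'
      exact h'

end Pool.Agent.Results.MP_0f260b_nt.SecondMoment
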