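import Pool.Agent.H463.DH.All6
import Pool.Agent.H463.DH.C1
import Pool.Agent.H463.DH.C2

/-!
# The average 3-torsion of the class groups of imaginary quadratic function fields in characteristic 3

Let `F` be a finite field of characteristic `3` with `q` elements (`q = 3, 9, 27, …` is fixed).
The imaginary quadratic extensions `K` of `F(t)` are the fields `F(t)(√f)` with `f` squarefree such that

* the degree of `f` is odd (the infinite place ramifies); up to scaling `f` is monic, or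
* the degree of `f` is even and positive and the leading coefficient of `f` is not a square (the infinite
  place is inert).

The integral closure of `F[t]` in `K` is `F[t] + F[t] √f`.  The case of the prime `p = 3` is the case
`p = char K`, which is excluded in the theorems of Ellenberg-Venkatesh-Westerland and of Landesman-Levy.

The theorem: let `f` run over the `q^n - q^{n-1}` squarefree polynomials of degree `n` with leading coefficient
`a`, where `n` is odd and `a = 1` or `n` is even and `a` is not a square.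

* The class group `Cl(f)` of `F[t] + F[t] √f` is finite and
  `∑_f (#Cl(f)[3] - 2) = O(n³ q^{n - ⌊(n-1)/8⌋})`: the average number of surjections
  `Cl(f) → ℤ/3` tends to `1` as `n → ∞`, with a power saving, for every fixed `q = 3^k`.
* Consequently at least half of the class numbers are prime to `3` (the lower density is at least `1/2`).

## The proof

`F[t] + F[t] √f` has the derivation `δ` with `δ t = √f`, `δ √f = - f'`, and in characteristic `3` one has
`δ³ = - f'' δ`.  Logarithmic derivatives identify the classes of order dividing `3` with the polynomials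
`v` such that `(f v)'' = - v³` (an equation which is linear in `f`).  The first moment is then a count
of lattice points (`f v = A³ + t B³ + t² v³`) with a sieve for the squarefree `f`.
-/

set_option autoImplicit false

open Polynomial

noncomputable section

namespace Pool.Agent.Results.MP_0f260b_nt.ThreeTorsionAverage

/-- The ring `F[t] + F[t] √f`: elements `a + b s` with `a, b ∈ F[t]` and `s² = f`. -/
abbrev Ord {F : Type} [Field F] (f : F[X]) : Type := QuadraticAlgebra F[X] f 0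

/-- The squarefree polynomials of degree `n` over `F` with leading coefficient `a`. -/
def family (F : Type) [Field F] (a : F) (n : ℕ) : Set F[X] :=
  {f | f.leadingCoeff = a ∧ Squarefree f ∧ f.natDegree = n}

/-- The infinite place of `F(t)` ramifies in `F(t)(√f)`, `f ∈ family F a n` (and `f` is monic), or is inert. -/
def Imaginary {F : Type} [Field F] (a : F) (n : ℕ) : Prop :=
  (Odd n ∧ a = 1) ∨ (Even n ∧ 0 < n ∧ ¬ IsSquare a)

open scoped Classical in
/-- The class number of `Ord f` (`0` if `Ord f` is not a domain). -/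
def classNumber {F : Type} [Field F] (f : F[X]) : ℕ :=
  if _h : IsDomain (Ord f) then Nat.card (ClassGroup (Ord f)) else 0

open scoped Classical in
/-- The number of the ideal classes `c` of `Ord f` with `c ^ 3 = 1` (`0` if `Ord f` is not a domain). -/
def threeTorsion {F : Type} [Field F] (f : F[X]) : ℕ :=
  if _h : IsDomain (Ord f) then Nat.card {c : ClassGroup (Ord f) // c ^ 3 = 1} else 0

section aux

variable (F : Type) [Field F] [Fintype F] [CharP F 3]

theorem ne_zero_of {a : F} {n : ℕ} (h : Imaginary a n) : a ≠ 0 := by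
  rcases h with ⟨-, h⟩ | ⟨-, -, h⟩
  · rw [h]; exact one_ne_zero
  · rintro rfl
    exact h ⟨0, by rw [mul_zero]⟩

theorem pos_of {a : F} {n : ℕ} (h : Imaginary a n) : 0 < n := by
  rcases h with ⟨h, -⟩ | ⟨-, h, -⟩
  · exact h.pos
  · exact h

open scoped Classical in
theorem family_eq {a : F} (ha : a ≠ 0) (n : ℕ) :
    family F a n = (((DH.SQF F n).image (fun f => C a * f) : Finset F[X]) : Set F[X]) := by
  have hB0 := DH.p_B0 F
  ext f
  rw [Finset.mem_coe, Finset.mem_image]
  simp only [family, Set.mem_setOf_eq, DH.SQF, Finset.mem_filter, hB0.2.1]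
  have hu : IsUnit (C a : F[X]) := isUnit_C.2 (isUnit_iff_ne_zero.2 ha)
  have hu' : IsUnit (C a⁻¹ : F[X]) := isUnit_C.2 (isUnit_iff_ne_zero.2 (inv_ne_zero ha))
  constructor
  · rintro ⟨h1, h2, h3⟩
    refine ⟨C a⁻¹ * f, ⟨⟨?_, ?_⟩, ?_⟩, ?_⟩
    · rw [Monic, leadingCoeff_mul, leadingCoeff_C, h1, inv_mul_cancel₀ ha]
    · rw [natDegree_C_mul (inv_ne_zero ha), h3]
    · intro x hx
      exact h2 x ((hu'.dvd_mul_left).1 hx)
    · rw [← mul_assoc, ← C_mul, mul_inv_cancel₀ ha, C_1, one_mul]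
  · rintro ⟨g, ⟨⟨h1, h2⟩, h3⟩, rfl⟩
    refine ⟨?_, ?_, ?_⟩
    · rw [leadingCoeff_mul, leadingCoeff_C, h1.leadingCoeff, mul_one]
    · intro x hx
      exact h3 x ((hu.dvd_mul_left).1 hx)
    · rw [natDegree_C_mul ha, h2]

theorem inj {a : F} (ha : a ≠ 0) : Function.Injective (fun f : F[X] => C a * f) := by
  intro f g h
  exact mul_left_cancel₀ (C_ne_zero.2 ha) h

theorem card_fam {a : F} (ha : a ≠ 0) (n : ℕ) :
    (family F a n).ncard = (DH.SQF F n).card := by
  classical
  rw [family_eq F ha, Set.ncard_coe_finset, Finset.card_image_of_injective _ (inj F ha)]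

theorem sum_fam {a : F} (ha : a ≠ 0) (n : ℕ) (φ : F[X] → ℝ) :
    ∑ᶠ f ∈ family F a n, φ f = ∑ f ∈ DH.SQF F n, φ (C a * f) := by
  classical
  rw [family_eq F ha, finsum_mem_coe_finset, Finset.sum_image]
  intro f _ g _ h
  exact inj F ha h

theorem good {a : F} {n : ℕ} (h : Imaginary a n) {f : F[X]} (hf : f ∈ family F a n) :
    IsDedekindDomain (Ord f) ∧ 0 < classNumber f ∧ (∃ r : ℕ, threeTorsion f = 3 ^ r) ∧
      (threeTorsion f = 1 ↔ ¬ 3 ∣ classNumber f) := by
  obtain ⟨h1, h2, h3⟩ := hf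
  rcases h with ⟨ho, ha⟩ | ⟨he, hp, ha⟩
  · have hA2 := DH.p_A2 F
    have hA3 := DH.p_A3 F
    have hC1 := DH.p_C1 F
    have hC2 := DH.p_C2 F hA2 (hC1 hA2 hA3)
    have hg : DH.Good f := ⟨by rw [Monic, h1, ha], h2, by rw [h3]; exact ho⟩
    exact ⟨hA3 f hg, hC1 hA2 hA3 f hg, (hC2 f hg).2.2, (hC2 f hg).1⟩
  · have hg : DH.GoodI f := ⟨h2, by rw [h3]; exact he, by rw [h3]; exact hp, by rw [h1]; exact ha⟩
    obtain ⟨hI3, hIC⟩ := DH.i3c F
    have hded : IsDedekindDomain (Ord f) := hI3 f hg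
    refine ⟨hded, (hIC f hg).1, ?_, (hIC f hg).2.1⟩
    have hd : IsDomain (DH.OO f) := (DH.p_I2 F f hg).1
    have hfin : Finite (ClassGroup (DH.OO f)) := DH.XIC.fin f hded
    have e2 : threeTorsion f = Nat.card {c : ClassGroup (DH.OO f) // c ^ 3 = 1} := by
      unfold threeTorsion
      rw [dif_pos hd]
    rw [e2]
    exact (DH.XIC.grp (ClassGroup (DH.OO f))).2.2

theorem card_sqf {n : ℕ} (hn : 2 ≤ n) : ((DH.SQF F n).card : ℝ) =
    (Fintype.card F : ℝ) ^ n - (Fintype.card F : ℝ) ^ (n - 1) := by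
  have hB0 := DH.p_B0 F
  have hF5 := DH.p_F5 F hB0 (DH.p_MU F hB0)
  rcases Nat.even_or_odd' n with ⟨k, hk | hk⟩
  · obtain ⟨g, rfl⟩ : ∃ g, k = g + 1 := ⟨k - 1, by omega⟩
    have := DH.ef5 F g
    rw [hk]
    have e1 : 2 * (g + 1) = 2 * g + 2 := by ring
    rw [e1]
    exact this
  · rw [hk]
    exact hF5.2 k (by omega)

theorem bound : ∃ C : ℝ, ∀ (a : F) (n : ℕ), Imaginary a n →
    |∑ᶠ f ∈ family F a n, ((threeTorsion f : ℝ) - 2)| ≤
      C * (n : ℝ) ^ 3 * (Fintype.card F : ℝ) ^ n / (Fintype.card F : ℝ) ^ ((n - 1) / 8) := by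
  classical
  obtain ⟨-, ⟨C₁, h1⟩, -, -⟩ := DH.all F
  have h2 : ∀ a : F, ∃ C₂ : ℝ, ¬ IsSquare a → ∀ g : ℕ,
      |∑ f ∈ DH.SQF F (2 * g + 2), ((DH.cl3 (C a * f) : ℝ) - 2)| ≤
      C₂ * (g + 1) ^ 3 * (Fintype.card F : ℝ) ^ (2 * g + 2) / (Fintype.card F : ℝ) ^ (g / 4) := by
    intro a
    by_cases ha : IsSquare a
    · exact ⟨0, fun h => absurd ha h⟩
    · obtain ⟨C₂, h⟩ := DH.all6 F a ha
      exact ⟨C₂, fun _ => h⟩
  choose C₂ h2 using h2
  have hq : (0 : ℝ) < Fintype.card F := by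
    exact_mod_cast Fintype.card_pos
  set D : ℝ := |C₁| + ∑ a : F, |C₂ a| with hD
  have hD1 : C₁ ≤ D := by
    have := Finset.sum_nonneg (fun a (_ : a ∈ (Finset.univ : Finset F)) => abs_nonneg (C₂ a))
    have := le_abs_self C₁
    linarith
  have hD2 : ∀ a, C₂ a ≤ D := by
    intro a
    have h3 := Finset.single_le_sum (f := fun a => |C₂ a|)
      (fun a _ => abs_nonneg (C₂ a)) (Finset.mem_univ a)
    have h4 := le_abs_self (C₂ a)
    have h5 := abs_nonneg C₁
    linarith
  have hD0 : 0 ≤ D := by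
    have := Finset.sum_nonneg (fun a (_ : a ∈ (Finset.univ : Finset F)) => abs_nonneg (C₂ a))
    have := abs_nonneg C₁
    linarith
  have key : ∀ (c : ℝ) (g n : ℕ) (S : ℝ), c ≤ D → g + 1 ≤ n → (n - 1) / 8 = g / 4 →
      |S| ≤ c * (g + 1) ^ 3 * (Fintype.card F : ℝ) ^ n / (Fintype.card F : ℝ) ^ (g / 4) →
      |S| ≤ D * (n : ℝ) ^ 3 * (Fintype.card F : ℝ) ^ n / (Fintype.card F : ℝ) ^ ((n - 1) / 8) := by
    intro c g n S hc hg hn hS
    rw [hn]
    refine hS.trans ?_
    have hg' : (g : ℝ) + 1 ≤ n := by exact_mod_cast hg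
    apply div_le_div_of_nonneg_right _ (by positivity)
    apply mul_le_mul_of_nonneg_right _ (by positivity)
    calc c * ((g : ℝ) + 1) ^ 3 ≤ D * ((g : ℝ) + 1) ^ 3 :=
          mul_le_mul_of_nonneg_right hc (by positivity)
      _ ≤ D * (n : ℝ) ^ 3 :=
          mul_le_mul_of_nonneg_left (pow_le_pow_left₀ (by positivity) hg' 3) hD0
  refine ⟨D, fun a n h => ?_⟩
  rw [sum_fam F (ne_zero_of F h)]
  rcases h with ⟨⟨g, rfl⟩, rfl⟩ | ⟨⟨k, hk⟩, hp, ha⟩
  · refine key C₁ g (2 * g + 1) _ hD1 (by omega) (by omega) ?_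
    simp only [C_1, one_mul]
    exact h1 g
  · obtain ⟨g, rfl⟩ : ∃ g, n = 2 * g + 2 := ⟨k - 1, by omega⟩
    exact key (C₂ a) g (2 * g + 2) _ (hD2 a) (by omega) (by omega) (h2 a ha g)

theorem lim_aux {q C δ : ℝ} (hq : 1 < q) (hδ : 0 < δ) :
    ∃ g₀ : ℕ, ∀ g ≥ g₀, C * ((g : ℝ)) ^ 3 / q ^ ((g - 1) / 8) ≤ δ := by
  have hq0 : 0 < q := by linarith
  have hr : |1 / q| < 1 := by
    rw [abs_of_pos (by positivity), div_lt_one hq0]
    exact hq
  have h1 := tendsto_pow_const_mul_const_pow_of_abs_lt_one 3 hr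
  have h2 : Filter.Tendsto (fun m : ℕ => |C| * 512 * q * ((m : ℝ) ^ 3 * (1 / q) ^ m))
      Filter.atTop (nhds 0) := by
    have := h1.const_mul (|C| * 512 * q)
    rwa [mul_zero] at this
  obtain ⟨m0, hm0⟩ := Filter.eventually_atTop.1 ((tendsto_order.1 h2).2 δ hδ)
  refine ⟨8 * m0, fun g hg => ?_⟩
  have hm : m0 ≤ (g - 1) / 8 + 1 := by omega
  have h3 := (hm0 _ hm).le
  have h4 : (g : ℝ) ≤ 8 * (((g - 1) / 8 + 1 : ℕ) : ℝ) := by
    have : g ≤ 8 * ((g - 1) / 8 + 1) := by omega
    exact_mod_cast this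
  have h5 : ((g : ℝ)) ^ 3 ≤ 512 * (((g - 1) / 8 + 1 : ℕ) : ℝ) ^ 3 := by
    calc ((g : ℝ)) ^ 3 ≤ (8 * (((g - 1) / 8 + 1 : ℕ) : ℝ)) ^ 3 :=
          pow_le_pow_left₀ (by positivity) h4 3
      _ = _ := by ring
  have hqp : 0 < q ^ ((g - 1) / 8) := by positivity
  calc C * ((g : ℝ)) ^ 3 / q ^ ((g - 1) / 8)
      ≤ |C| * (512 * (((g - 1) / 8 + 1 : ℕ) : ℝ) ^ 3) / q ^ ((g - 1) / 8) := by
        apply div_le_div_of_nonneg_right _ hqp.le
        exact mul_le_mul (le_abs_self C) h5 (by positivity) (abs_nonneg C)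
    _ = |C| * 512 * q * ((((g - 1) / 8 + 1 : ℕ) : ℝ) ^ 3 * (1 / q) ^ ((g - 1) / 8 + 1)) := by
        rw [one_div, inv_pow, pow_succ]
        field_simp
        ring
    _ ≤ δ := h3

end aux

theorem result (F : Type) [Field F] [Fintype F] [CharP F 3] :
    -- the rings are Dedekind domains with finite class groups, and `#Cl[3]` is a power of `3`
    (∀ (a : F) (n : ℕ), Imaginary a n → ∀ f ∈ family F a n,
      IsDedekindDomain (Ord f) ∧ 0 < classNumber f ∧ ∃ r : ℕ, threeTorsion f = 3 ^ r) ∧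
    -- the size of the family
    (∀ (a : F) (n : ℕ), Imaginary a n → 2 ≤ n → ((family F a n).ncard : ℝ) =
      (Fintype.card F : ℝ) ^ n - (Fintype.card F : ℝ) ^ (n - 1)) ∧
    -- the average of `#Cl[3]` is `2`, with a power saving
    (∃ C : ℝ, ∀ (a : F) (n : ℕ), Imaginary a n →
      |∑ᶠ f ∈ family F a n, ((threeTorsion f : ℝ) - 2)| ≤
        C * (n : ℝ) ^ 3 * (Fintype.card F : ℝ) ^ n / (Fintype.card F : ℝ) ^ ((n - 1) / 8)) ∧
    -- at least one half of the class numbers is prime to `3`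
    (∀ ε : ℝ, 0 < ε → ∃ n₀ : ℕ, ∀ n ≥ n₀, ∀ a : F, Imaginary a n →
      (1 / 2 - ε) * ((family F a n).ncard : ℝ) ≤
        ({f ∈ family F a n | ¬ 3 ∣ classNumber f}.ncard : ℝ)) := by
  classical
  obtain ⟨K, hK⟩ := bound F
  refine ⟨?_, ?_, ⟨K, hK⟩, ?_⟩
  · intro a n h f hf
    obtain ⟨h1, h2, h3, -⟩ := good F h hf
    exact ⟨h1, h2, h3⟩
  · intro a n h hn
    rw [card_fam F (ne_zero_of F h)]
    exact card_sqf F hn
  · intro ε hε
    have hq3 : 3 ≤ Fintype.card F := by
      have h2 : 3 ∣ Fintype.card F := (CharP.cast_eq_zero_iff F 3 _).1 (by simp)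
      exact Nat.le_of_dvd Fintype.card_pos h2
    have hq3' : (3 : ℝ) ≤ (Fintype.card F : ℝ) := by exact_mod_cast hq3
    set q : ℝ := (Fintype.card F : ℝ) with hqd
    have hq1 : 1 < q := by linarith
    have hq0 : 0 < q := by linarith
    obtain ⟨n₀, hn₀⟩ := lim_aux (C := K) hq1 (show (0 : ℝ) < ε by exact hε)
    refine ⟨n₀ + 2, fun n hn a h => ?_⟩
    have ha := ne_zero_of F h
    have hs := hK a n h
    rw [sum_fam F ha] at hs
    have hcard := card_sqf F (n := n) (by omega)
    rw [card_fam F ha]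
    set S := DH.SQF F n with hS
    -- the error is at most `2 ε #S`
    have herr : K * (n : ℝ) ^ 3 * q ^ n / q ^ ((n - 1) / 8) ≤ 2 * ε * (S.card : ℝ) := by
      have h1 := hn₀ n (by omega)
      have hp : 0 < q ^ n := by positivity
      have h2 : q ^ n = q * q ^ (n - 1) := by
        rw [← pow_succ']
        congr 1
        omega
      have hp' : 0 < q ^ (n - 1) := by positivity
      calc K * (n : ℝ) ^ 3 * q ^ n / q ^ ((n - 1) / 8)
          = (K * (n : ℝ) ^ 3 / q ^ ((n - 1) / 8)) * q ^ n := by ring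
        _ ≤ ε * q ^ n := mul_le_mul_of_nonneg_right h1 hp.le
        _ ≤ 2 * ε * (S.card : ℝ) := by
            rw [hcard, h2]
            nlinarith [mul_pos hε hp']
    have h3 := (abs_le.1 (hs.trans herr)).2
    -- the pointwise bound
    have hfam : ∀ f ∈ S, C a * f ∈ family F a n := by
      intro f hf
      rw [family_eq F ha, Finset.mem_coe, Finset.mem_image]
      exact ⟨f, hf, rfl⟩
    have h6 : ∑ f ∈ S, (2 * (if ¬ threeTorsion (Polynomial.C a * f) = 1 then (1 : ℝ) else 0) - 1) ≤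
        ∑ f ∈ S, ((threeTorsion (Polynomial.C a * f) : ℝ) - 2) := by
      refine Finset.sum_le_sum fun f hf => ?_
      obtain ⟨-, -, ⟨r, hr⟩, -⟩ := good F h (hfam f hf)
      by_cases h1 : threeTorsion (Polynomial.C a * f) = 1
      · rw [if_neg (not_not.2 h1), h1]
        norm_num
      · rw [if_pos h1]
        have hr0 : r ≠ 0 := by
          rintro rfl
          exact h1 (by rw [hr, pow_zero])
        have h7 : 3 ≤ threeTorsion (Polynomial.C a * f) := by
          rw [hr]
          calc 3 = 3 ^ 1 := (pow_one 3).symm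
            _ ≤ 3 ^ r := Nat.pow_le_pow_right (by norm_num) (Nat.one_le_iff_ne_zero.2 hr0)
        have h8 : (3 : ℝ) ≤ (threeTorsion (Polynomial.C a * f) : ℝ) := by exact_mod_cast h7
        linarith
    have h7 : ∑ f ∈ S, (2 * (if ¬ threeTorsion (Polynomial.C a * f) = 1 then (1 : ℝ) else 0) - 1) =
        2 * ((S.filter (fun f => ¬ threeTorsion (Polynomial.C a * f) = 1)).card : ℝ) -
          (S.card : ℝ) * 1 := by
      rw [Finset.sum_sub_distrib, Finset.sum_const, nsmul_eq_mul, ← Finset.mul_sum,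
        Finset.sum_boole]
    rw [h7] at h6
    have h5 : ((S.filter (fun f => threeTorsion (Polynomial.C a * f) = 1)).card : ℝ) +
        ((S.filter (fun f => ¬ threeTorsion (Polynomial.C a * f) = 1)).card : ℝ) = (S.card : ℝ) := by
      have := Finset.card_filter_add_card_filter_not (s := S)
        (fun f => threeTorsion (Polynomial.C a * f) = 1)
      exact_mod_cast this
    have e : {f ∈ family F a n | ¬ 3 ∣ classNumber f} =
        (((S.filter (fun f => threeTorsion (Polynomial.C a * f) = 1)).image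
          (fun f => Polynomial.C a * f) : Finset F[X]) : Set F[X]) := by
      ext f
      rw [Finset.mem_coe, Finset.mem_image]
      simp only [Set.mem_setOf_eq, Finset.mem_filter]
      constructor
      · rintro ⟨hf, hf3⟩
        have hf' := hf
        rw [family_eq F ha, Finset.mem_coe, Finset.mem_image] at hf'
        obtain ⟨f', hf1, rfl⟩ := hf'
        exact ⟨f', ⟨hf1, (good F h hf).2.2.2.2 hf3⟩, rfl⟩
      · rintro ⟨f', ⟨hf1, hf2⟩, rfl⟩
        exact ⟨hfam f' hf1, (good F h (hfam f' hf1)).2.2.2.1 hf2⟩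
    rw [e, Set.ncard_coe_finset, Finset.card_image_of_injective _ (inj F ha)]
    linarith

end Pool.Agent.Results.MP_0f260b_nt.ThreeTorsionAverage
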